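import Pool.Agent.Helper92.PW.St

set_option autoImplicit false

open Finset

namespace Pool.Agent.Helper32.PW

open Pool.Agent.Helper92.PW

private theorem par_of (k : ℤ) (b : ℝ) (hk : 1 ≤ |(k : ℝ)|) (hb : 160358400 * |(k : ℝ)| + 1 ≤ b) :
    Par k (b ^ 200) b⁻¹ (b ^ 184)⁻¹ := by
  have hb1 : 1 ≤ b := by linarith
  have hb0 : 0 < b := by linarith
  have hb90 : 90 ≤ b := by linarith
  have hbl : b ^ 200 * (b ^ 184)⁻¹ = b ^ 16 := by
    have : b ^ 200 = b ^ 16 * b ^ 184 := by rw [← pow_add]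
    rw [this, mul_assoc, mul_inv_cancel₀ (by positivity), mul_one]
  refine ⟨hk, one_le_pow₀ hb1, by positivity, inv_le_one_of_one_le₀ hb1, by positivity,
    ?_, ?_, ?_, ?_⟩
  · rw [hbl]
    have h1 : b ≤ b ^ 16 := le_self_pow₀ hb1 (by norm_num)
    refine le_trans ?_ h1
    linarith
  · rw [inv_pow]
    have e : (b ^ 9)⁻¹ = b ^ 175 * (b ^ 184)⁻¹ := by
      have : b ^ 184 = b ^ 175 * b ^ 9 := by rw [← pow_add]
      rw [this, mul_inv, ← mul_assoc, mul_inv_cancel₀ (by positivity), one_mul]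
    rw [e]
    refine mul_le_mul_of_nonneg_right ?_ (by positivity)
    have h1 : b ≤ b ^ 175 := le_self_pow₀ hb1 (by norm_num)
    linarith
  · rw [inv_pow, ← pow_mul, ← pow_mul]
    have h1 : b ^ (200 * 3) ≤ b ^ (184 * 4) := pow_le_pow_right₀ hb1 (by norm_num)
    calc (b ^ (184 * 4))⁻¹ * b ^ (200 * 3) ≤ (b ^ (184 * 4))⁻¹ * b ^ (184 * 4) :=
          mul_le_mul_of_nonneg_left h1 (by positivity)
      _ = 1 := inv_mul_cancel₀ (by positivity)
  · rw [inv_pow, inv_pow, ← pow_mul, ← pow_mul]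
    have e : b ^ (200 * 9) * (b ^ (184 * 10))⁻¹ = (b ^ 40)⁻¹ := by
      have : b ^ (184 * 10) = b ^ (200 * 9) * b ^ 40 := by rw [← pow_add]
      rw [this, mul_inv, ← mul_assoc, mul_inv_cancel₀ (by positivity), one_mul]
    have e2 : (b ^ 39)⁻¹ = b * (b ^ 40)⁻¹ := by
      have : b ^ 40 = b * b ^ 39 := by rw [← pow_succ']
      rw [this, mul_inv, ← mul_assoc, mul_inv_cancel₀ hb0.ne', one_mul]
    rw [mul_assoc, e, e2]
    refine mul_lt_mul_of_pos_right (by linarith) (by positivity)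

private theorem cst (ε : ℝ) : ∃ c1 : ℝ, 0 < c1 ∧ ∀ x : ℝ, 0 ≤ x →
    (8 * 6 ^ 15 * x) ^ ε = c1 * x ^ ε := by
  have h : (0 : ℝ) < 8 * 6 ^ 15 := by norm_num
  refine ⟨(8 * 6 ^ 15 : ℝ) ^ ε, Real.rpow_pos_of_pos h ε, fun x hx => ?_⟩
  exact Real.mul_rpow h.le hx

theorem hGEN (h1 : StPAT) (h2 : StSGN) (h3 : StDIV) : StGEN := by
  intro k hk
  have hk0 : k ≠ 0 := by
    rintro rfl
    exact hk 0 (by norm_num)
  have hK : 1 ≤ |(k : ℝ)| := by
    have := Int.one_le_abs hk0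
    exact_mod_cast this
  obtain ⟨C, hC, hdiv⟩ := h3 (1 / 1200000) (by norm_num)
  obtain ⟨c1, hc10, hcst⟩ := cst (1 / 1200000)
  refine ⟨12408 * |(k : ℝ)| + 312 * C * c1,
    (160358400 * |(k : ℝ)| + 1) ^ 200, by positivity, one_le_pow₀ (by linarith), ?_⟩
  intro B hB S hS
  have hx0 : (0 : ℝ) ≤ 160358400 * |(k : ℝ)| + 1 := by positivity
  have hB0 : 0 < B := lt_of_lt_of_le (by positivity) hB
  -- `b = B ^ (1 / 200)`
  obtain ⟨b, hbdef⟩ : ∃ b : ℝ, b = B ^ (1 / 200 : ℝ) := ⟨_, rfl⟩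
  have hb : 160358400 * |(k : ℝ)| + 1 ≤ b := by
    have e : (1 / 200 : ℝ) = ((200 : ℕ) : ℝ)⁻¹ := by norm_num
    rw [hbdef, e, ← Real.pow_rpow_inv_natCast hx0 (n := 200) (by norm_num)]
    exact Real.rpow_le_rpow (by positivity) hB (by positivity)
  have hb1 : 1 ≤ b := by linarith
  have hb0 : 0 < b := by linarith
  have hBb : B = b ^ 200 := by
    rw [hbdef, ← Real.rpow_natCast, ← Real.rpow_mul hB0.le]
    norm_num
  have hβ : B ^ (-(1 / 200) : ℝ) = b⁻¹ := by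
    rw [Real.rpow_neg hB0.le, hbdef]
  have hP := par_of k b hK hb
  rw [← hBb] at hP
  rw [hβ] at hS
  have hB1 : 1 ≤ B := hP.B1
  -- bound for a patch
  have hd : B ^ th = b ^ 198 * B ^ (1 / 40000 : ℝ) := by
    have e1 : b ^ 198 = B ^ (99 / 100 : ℝ) := by
      rw [hbdef, ← Real.rpow_natCast, ← Real.rpow_mul hB0.le]
      norm_num
    rw [e1, ← Real.rpow_add hB0]
    congr 1
    unfold th
    norm_num
  have hd1 : 1 ≤ B ^ (1 / 40000 : ℝ) := Real.one_le_rpow hB1 (by norm_num)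
  have patch : ∀ T : Finset Pt, (∀ p ∈ T, Gen k B b⁻¹ p) →
      (∀ p ∈ T, ∀ q ∈ T, |xi p - xi q| ≤ (b ^ 184)⁻¹) →
      (T.card : ℝ) ≤ 6204 * |(k : ℝ)| * b ^ 7 + 156 * C * c1 * (b ^ 14 * B ^ (1 / 40000 : ℝ)) := by
    intro T hT1 hT2
    obtain ⟨n, hn1, hn2, hn3⟩ := h1 k B b⁻¹ (b ^ 184)⁻¹ hP hk T hT1 hT2
    have hbl : B * (b ^ 184)⁻¹ = b ^ 16 := by
      have : b ^ 200 = b ^ 16 * b ^ 184 := by rw [← pow_add]
      rw [hBb, this, mul_assoc, mul_inv_cancel₀ (by positivity), mul_one]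
    have e3 : (B * (b ^ 184)⁻¹) ^ (3 / 4 : ℝ) = b ^ 12 := by
      rw [hbl, ← Real.rpow_natCast b 16, ← Real.rpow_mul hb0.le, ← Real.rpow_natCast b 12]
      norm_num
    rw [e3] at hn3
    have e4 : b ^ 12 / b⁻¹ ^ 2 = b ^ 14 := by
      rw [inv_pow, div_inv_eq_mul, ← pow_add]
    have e5 : 6204 * |(k : ℝ)| / b⁻¹ ^ 7 = 6204 * |(k : ℝ)| * b ^ 7 := by
      rw [inv_pow, div_inv_eq_mul]
    rw [e4, e5] at hn3
    have hτ : (n.divisors.card : ℝ) ≤ C * (c1 * B ^ (1 / 40000 : ℝ)) := by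
      refine le_trans (hdiv n hn1) (mul_le_mul_of_nonneg_left ?_ hC.le)
      have e6 : (8 * ((6 * B ^ 2) ^ 5) ^ 3 : ℝ) = 8 * 6 ^ 15 * B ^ 30 := by ring
      rw [e6] at hn2
      calc (n : ℝ) ^ (1 / 1200000 : ℝ) ≤ (8 * 6 ^ 15 * B ^ 30) ^ (1 / 1200000 : ℝ) :=
            Real.rpow_le_rpow (by positivity) hn2 (by norm_num)
        _ = c1 * (B ^ 30) ^ (1 / 1200000 : ℝ) := hcst _ (by positivity)
        _ = c1 * B ^ (1 / 40000 : ℝ) := by
            rw [← Real.rpow_natCast B 30, ← Real.rpow_mul hB0.le]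
            norm_num
    refine le_trans hn3 (add_le_add le_rfl ?_)
    calc 156 * (n.divisors.card : ℝ) * b ^ 14
        ≤ 156 * (C * (c1 * B ^ (1 / 40000 : ℝ))) * b ^ 14 := by
          refine mul_le_mul_of_nonneg_right ?_ (by positivity)
          exact mul_le_mul_of_nonneg_left hτ (by norm_num)
      _ = 156 * C * c1 * (b ^ 14 * B ^ (1 / 40000 : ℝ)) := by ring
  -- the partition
  let f : Pt → ℕ := fun p => ⌊(xi p + 1) * b ^ 184⌋₊
  have hxi : ∀ p ∈ S, -1 ≤ xi p ∧ xi p ≤ 0 := by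
    intro p hp
    have h := (h2 k B b⁻¹ (b ^ 184)⁻¹ hP p (hS p hp)).1
    have : 0 < b⁻¹ := by positivity
    exact ⟨h.1, by linarith [h.2.1]⟩
  have hb184 : (0 : ℝ) < b ^ 184 := by positivity
  have hf : ∀ p ∈ S, f p ∈ Finset.range (⌊b ^ 184⌋₊ + 1) := by
    intro p hp
    rw [Finset.mem_range, Nat.lt_succ_iff]
    refine Nat.floor_le_floor ?_
    have := hxi p hp
    have h5 : xi p + 1 ≤ 1 := by linarith
    calc (xi p + 1) * b ^ 184 ≤ 1 * b ^ 184 := mul_le_mul_of_nonneg_right h5 hb184.le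
      _ = b ^ 184 := one_mul _
  have hcard := Finset.card_eq_sum_card_fiberwise (f := f) (s := S)
    (t := Finset.range (⌊b ^ 184⌋₊ + 1)) (fun p hp => by
      have := hf p (by simpa using hp)
      simpa using this)
  set M : ℝ := 6204 * |(k : ℝ)| * b ^ 7 + 156 * C * c1 * (b ^ 14 * B ^ (1 / 40000 : ℝ)) with hM
  have hM0 : 0 ≤ M := by positivity
  have hfib : ∀ j ∈ Finset.range (⌊b ^ 184⌋₊ + 1),
      ((S.filter fun p => f p = j).card : ℝ) ≤ M := by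
    intro j _
    refine patch _ (fun p hp => hS p (Finset.mem_filter.mp hp).1) ?_
    intro p hp q hq
    obtain ⟨hpS, hpj⟩ := Finset.mem_filter.mp hp
    obtain ⟨hqS, hqj⟩ := Finset.mem_filter.mp hq
    have p0 := hxi p hpS
    have q0 := hxi q hqS
    have a1 : (j : ℝ) ≤ (xi p + 1) * b ^ 184 := by
      rw [← hpj]
      exact Nat.floor_le (mul_nonneg (by linarith) hb184.le)
    have a2 : (xi p + 1) * b ^ 184 < j + 1 := by
      rw [← hpj]
      exact Nat.lt_floor_add_one _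
    have a3 : (j : ℝ) ≤ (xi q + 1) * b ^ 184 := by
      rw [← hqj]
      exact Nat.floor_le (mul_nonneg (by linarith) hb184.le)
    have a4 : (xi q + 1) * b ^ 184 < j + 1 := by
      rw [← hqj]
      exact Nat.lt_floor_add_one _
    have a5 : |(xi p - xi q) * b ^ 184| ≤ 1 := by
      have e7 : (xi p - xi q) * b ^ 184 = (xi p + 1) * b ^ 184 - (xi q + 1) * b ^ 184 := by
        rw [← sub_mul]
        congr 1
        ring
      rw [e7, abs_le]
      constructor <;> linarith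
    rw [abs_mul, abs_of_pos hb184] at a5
    rw [← one_div, le_div_iff₀ hb184]
    exact a5
  have hsum : (S.card : ℝ) ≤ (⌊b ^ 184⌋₊ + 1 : ℝ) * M := by
    rw [hcard]
    push_cast
    refine le_trans (Finset.sum_le_card_nsmul _ _ M hfib) ?_
    rw [Finset.card_range, nsmul_eq_mul]
    push_cast
    exact le_rfl
  have hfl : (⌊b ^ 184⌋₊ : ℝ) ≤ b ^ 184 := Nat.floor_le hb184.le
  have h184 : 1 ≤ b ^ 184 := one_le_pow₀ hb1
  have h191 : b ^ 191 ≤ b ^ 198 * B ^ (1 / 40000 : ℝ) := by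
    calc b ^ 191 ≤ b ^ 198 := pow_le_pow_right₀ hb1 (by norm_num)
      _ = b ^ 198 * 1 := (mul_one _).symm
      _ ≤ _ := mul_le_mul_of_nonneg_left hd1 (by positivity)
  calc (S.card : ℝ) ≤ (⌊b ^ 184⌋₊ + 1 : ℝ) * M := hsum
    _ ≤ (2 * b ^ 184) * M := mul_le_mul_of_nonneg_right (by linarith) hM0
    _ = 12408 * |(k : ℝ)| * b ^ 191
        + 312 * C * c1 * (b ^ 198 * B ^ (1 / 40000 : ℝ)) := by rw [hM]; ring
    _ ≤ 12408 * |(k : ℝ)| * (b ^ 198 * B ^ (1 / 40000 : ℝ))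
        + 312 * C * c1 * (b ^ 198 * B ^ (1 / 40000 : ℝ)) :=
        add_le_add (mul_le_mul_of_nonneg_left h191 (by positivity)) le_rfl
    _ = (12408 * |(k : ℝ)| + 312 * C * c1) * B ^ th := by rw [hd]; ring

end Pool.Agent.Helper32.PW
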